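import Pool.Agent.H76.GX.Targets
import Pool.Agent.H53.GM.Basic

/-!
FAX: the type of the free amalgam
-/

set_option autoImplicit false
set_option linter.unusedVariables false

namespace Pool.Agent.H36.GX

open Pool.Agent.H68.BP Pool.Agent.H58.SF Pool.Agent.H53.GC Pool.Agent.H53.GR Pool.Agent.H53.GM
open Pool.Agent.H53.GX Pool.Agent.H76.GX
open Classical

theorem fo_rdp {k : ℕ} (S : Finset (Fin k)) (v : Fin k) : fo (rdp S v) = v := by
  unfold fo rdp
  split_ifs
  · exact Fin.addCases_right v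
  · exact Fin.addCases_left v

theorem cst_ne {k : ℕ} (v w : Fin k) : (Fin.castAdd k v : Fin (k + k)) ≠ Fin.natAdd k w := by
  intro h
  have h1 := congrArg Fin.val h
  have h2 := v.2
  simp only [Fin.val_castAdd, Fin.val_natAdd] at h1
  omega

theorem lf_mem {k : ℕ} (I S e : Finset (Fin k)) (v : Fin k) :
    (Fin.castAdd k v : Fin (k + k)) ∈ gs I S e ↔ v ∈ e ∧ v ∉ S := by
  unfold gs ps cst
  rw [Finset.mem_union, Finset.mem_image, Finset.mem_image]
  constructor
  · rintro (⟨w, h1, h2⟩ | ⟨w, h1, h2⟩)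
    · rw [Fin.castAdd_inj] at h2
      rw [← h2]
      exact Finset.mem_sdiff.1 h1
    · exact absurd h2.symm (cst_ne v w)
  · intro h
    exact Or.inl ⟨v, Finset.mem_sdiff.2 h, rfl⟩

theorem rt_mem {k : ℕ} (I S e : Finset (Fin k)) (v : Fin k) :
    (Fin.natAdd k v : Fin (k + k)) ∈ gs I S e ↔ v ∈ I := by
  unfold gs ps cst
  rw [Finset.mem_union, Finset.mem_image, Finset.mem_image]
  constructor
  · rintro (⟨w, h1, h2⟩ | ⟨w, h1, h2⟩)
    · exact absurd h2 (cst_ne w v)
    · rw [Fin.natAdd_inj] at h2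
      rw [← h2]
      exact h1
  · intro h
    exact Or.inr ⟨v, h, rfl⟩

theorem rdp_inter {k : ℕ} {S J : Finset (Fin k)} {v : Fin k} (h : v ∈ J) :
    rdp S v = rdp (S ∩ J) v := by
  unfold rdp
  by_cases h1 : v ∈ S
  · rw [if_pos h1, if_pos (Finset.mem_inter.2 ⟨h1, h⟩)]
  · rw [if_neg h1, if_neg fun h2 => h1 (Finset.mem_inter.1 h2).1]

theorem rdp_mem {k : ℕ} {I S J : Finset (Fin k)} {v : Fin k} (h : rdp (S ∩ J) v ∈ gs I S J) :
    v ∈ J := by
  unfold rdp at h
  split_ifs at h with h1
  · exact (Finset.mem_inter.1 h1).2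
  · exact ((lf_mem _ _ _ _).1 h).1

theorem rdp_gs {k : ℕ} {I S J : Finset (Fin k)} {v : Fin k} (hS : S ⊆ I) (h : v ∈ J) :
    rdp S v ∈ gs I S J := by
  unfold rdp
  split_ifs with h1
  · exact (rt_mem _ _ _ _).2 (hS h1)
  · exact (lf_mem _ _ _ _).2 ⟨h, h1⟩

theorem pf_FAX (hTPB : Pool.Agent.H53.GM.T_TPB) (hFRA : Pool.Agent.H76.GX.T_FRA)
    (hFGL : Pool.Agent.H76.GX.T_FGL) (hFAE : Pool.Agent.H76.GX.T_FAE) :
    Pool.Agent.H76.GX.T_FAX := by
  intro τ N k F I S J p t hF hk hS hp ht hpt
  obtain ⟨W, hW, M, M₁, M₂, B₁, B₂, b, hb⟩ := hFRA τ N k F I S J p t hF hk hS hp ht hpt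
  have hT : fa F I S J p t = tp N M b := hFAE τ N k F I S J p t W M M₁ M₂ B₁ B₂ b hF hk hS hb
  rw [hT]
  have hrs : ∀ {W' : Type} (M' : Str τ W') (b' : Fin (k + k) → W') (u : Fin k → Fin (k + k)),
      tp N M' (fun j => b' (u j)) = rs u (tp N M' b') := fun {W'} M' b' u =>
    (hTPB τ N W' W' (Fin (k + k)) (Fin k) M' M' b').2.1 u
  have hmono : ∀ {J' : Type} (M' : Str τ W), (∀ l z, M' l z → M l z) → ∀ a : J' → W,
      tp N M' a ⊆ tp N M a := fun {J'} M' hM a =>
    (hTPB τ N W W J' J' M' M a).1 (fun x => x) fun l z hz => hM l z hz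
  have h1M : ∀ l z, M₁ l z → M l z := fun l z hz => (hb.un l z).2 (Or.inl hz)
  have h2M : ∀ l z, M₂ l z → M l z := fun l z hz => (hb.un l z).2 (Or.inr hz)
  -- if all the roots of a piece are in the image of `rdp S'`, the piece is determined by its
  -- pull back
  refine ⟨⟨W, hW, M, b, hb.val, rfl⟩, ?_, ?_, ?_⟩
  · refine Set.Subset.antisymm ?_ ?_
    · have hQ := hFGL τ N k F I S J p t W M M₁ M₂ B₁ B₂ b hF hk hS hb W M₁ b
        (Finset.univ.image (rdp (S ∩ J))) ?_ ?_ ?_
      · intro q hq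
        rw [← hb.t1, hrs]
        exact hQ ⟨hq, by
          intro v i hv
          rw [Finset.mem_image]
          obtain ⟨j, -, hj⟩ := Option.map_eq_some_iff.1 hv
          exact ⟨j, Finset.mem_univ _, hj⟩⟩
      · intro v hv
        rw [rdp_inter hv]
        exact Finset.mem_image_of_mem _ (Finset.mem_univ _)
      · intro q hq _
        rw [hb.t1]
        exact hq
      · rintro ⟨D, ρ⟩ ⟨hq, hr⟩
        have hr2 : ∀ v i, ρ v = some i → fo i ∈ J ∧ rdp S (fo i) = i ∧
            rdp (S ∩ J) (fo i) = i := by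
          intro v i hv
          have h3 := Finset.mem_inter.1 (hr v i hv)
          obtain ⟨j, -, hj⟩ := Finset.mem_image.1 h3.1
          rw [← hj] at h3 ⊢
          rw [fo_rdp]
          have h4 := rdp_mem h3.2
          exact ⟨h4, rdp_inter h4, rfl⟩
        have e1 : (fun v => ((ρ v).map fo).map (rdp S)) = ρ := by
          funext v
          rcases hv : ρ v with _ | i
          · rfl
          · show some (rdp S (fo i)) = some i
            rw [(hr2 v i hv).2.1]
        have e2 : (fun v => ((ρ v).map fo).map (rdp (S ∩ J))) = ρ := by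
          funext v
          rcases hv : ρ v with _ | i
          · rfl
          · show some (rdp (S ∩ J) (fo i)) = some i
            rw [(hr2 v i hv).2.2]
        have h5 : ((D, fun v => (ρ v).map fo) : Str τ (Fin N) × (Fin N → Option (Fin k))) ∈
            rse J (rs (rdp S) t) := by
          refine ⟨?_, ?_⟩
          · show (D, fun v => ((ρ v).map fo).map (rdp S)) ∈ t
            rw [e1]
            exact hq
          · intro v i hv
            obtain ⟨j, hj, rfl⟩ := Option.map_eq_some_iff.1 hv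
            exact (hr2 v j hj).1
        rw [← hpt] at h5
        have h6 := h5.1
        rw [← hb.t1, hrs] at h6
        have h7 : (D, fun v => ((ρ v).map fo).map (rdp (S ∩ J))) ∈ tp N M₁ b := h6
        rw [e2] at h7
        exact h7
    · rw [← hrs]
      have h3 := hmono M₁ h1M (fun j => b (rdp (S ∩ J) j))
      rw [hb.t1] at h3
      exact h3
  · refine Set.Subset.antisymm ?_ ?_
    · have hQ := hFGL τ N k F I S J p t W M M₁ M₂ B₁ B₂ b hF hk hS hb W M₂ b
        (gs I S J) ?_ ?_ ?_
      · intro q hq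
        rw [← hb.t2]
        exact ⟨hQ hq, hq.2⟩
      · intro v hv
        exact rdp_gs hS hv
      · rintro ⟨D, ρ⟩ hq hr
        have h3 : ((D, ρ) : Str τ (Fin N) × (Fin N → Option (Fin k))) ∈ rse J p :=
          ⟨hq, fun v i hv => rdp_mem (hr v i hv)⟩
        rw [hpt] at h3
        have h4 : (D, fun v => (ρ v).map (rdp S)) ∈ rse (gs I S J) t := by
          refine ⟨h3.1, ?_⟩
          intro v i hv
          obtain ⟨j, hj, rfl⟩ := Option.map_eq_some_iff.1 hv
          exact rdp_gs hS (h3.2 v j hj)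
        rw [← hb.t2] at h4
        rw [hrs]
        show (D, fun v => (ρ v).map (rdp (S ∩ J))) ∈ tp N M₂ b
        have e1 : (fun v => (ρ v).map (rdp (S ∩ J))) = fun v => (ρ v).map (rdp S) := by
          funext v
          rcases hv : ρ v with _ | i
          · rfl
          · exact congrArg some (rdp_inter (h3.2 v i hv)).symm
        rw [e1]
        exact h4.1
      · intro q hq
        have h3 : q ∈ rse (gs I S J) t :=
          ⟨hq.1, fun v i hv => (Finset.mem_inter.1 (hq.2 v i hv)).1⟩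
        rw [← hb.t2] at h3
        exact h3.1
    · intro q hq
      rw [← hb.t2] at hq
      exact ⟨hmono M₂ h2M b hq.1, hq.2⟩
  · intro e t₂ hJe ht₂ h3 h4
    obtain ⟨W', hW', M', b', hV', rfl⟩ := ht₂
    refine hFGL τ N k F I S J p t W M M₁ M₂ B₁ B₂ b hF hk hS hb W' M' b'
        (gs I (S ∩ J) e) ?_ ?_ ?_
    · intro v hv
      rw [rdp_inter hv]
      unfold rdp
      split_ifs with h5
      · exact (rt_mem _ _ _ _).2 (hS (Finset.mem_inter.1 h5).1)
      · exact (lf_mem _ _ _ _).2 ⟨hJe hv, h5⟩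
    · intro q hq hr
      have h5 : q ∈ rse e p := by
        refine ⟨hq, ?_⟩
        intro v i hv
        have h6 := hr v i hv
        unfold rdp at h6
        split_ifs at h6 with h7
        · exact hJe (Finset.mem_inter.1 h7).2
        · exact ((lf_mem _ _ _ _).1 h6).1
      rw [hrs]
      exact h3 h5
    · intro q hq
      exact h4 ⟨hq.1, fun v i hv => (Finset.mem_inter.1 (hq.2 v i hv)).2⟩

end Pool.Agent.H36.GX
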