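import Pool.Agent.H53.GX.Targets
import Pool.Agent.H53.GM.Basic

/-!
KAX: types of tuples of the template
-/

set_option autoImplicit false
set_option linter.unusedVariables false

namespace Pool.Agent.H36.GX

open Pool.Agent.H68.BP Pool.Agent.H58.SF Pool.Agent.H53.GM Pool.Agent.H53.GX

theorem pf_KAX (hATM : Pool.Agent.H53.GM.T_ATM) : Pool.Agent.H53.GX.T_KAX := by
  classical
  intro τ σ N F Al A 𝔸 𝔸' hF hV hC k a
  refine ⟨?_, ?_⟩
  · have hfin : Finite (Str τ (Fin N) × (Fin N → Option (Fin k))) := by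
      have h1 : Finite (Str τ (Fin N)) := by
        unfold Str
        infer_instance
      infer_instance
    have hch : ∀ q : {q : Str τ (Fin N) × (Fin N → Option (Fin k)) // q ∈ tp N 𝔸' a},
        ∃ g : Fin N → A, IsHom q.1.1 𝔸' g ∧ ∀ v i, q.1.2 v = some i → g v = a i :=
      fun q => q.2.2
    choose g hg1 hg2 using hch
    obtain ⟨S, hS⟩ : ∃ S : Set A, S = Set.range a ∪ ⋃ q, Set.range (g q) := ⟨_, rfl⟩
    have hSf : S.Finite := by
      rw [hS]
      exact (Set.finite_range a).union (Set.finite_iUnion fun q => Set.finite_range (g q))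
    have ha : ∀ i, a i ∈ S := by
      intro i
      rw [hS]
      exact Or.inl ⟨i, rfl⟩
    have hg : ∀ q v, g q v ∈ S := by
      intro q v
      rw [hS]
      exact Or.inr (Set.mem_iUnion.2 ⟨q, v, rfl⟩)
    have hval : IsHom (fun l z => 𝔸' l (fun i => (z i).1) : Str τ {x // x ∈ S}) 𝔸'
        (fun x => x.1) := fun l z hz => hz
    refine ⟨{x // x ∈ S}, hSf.to_subtype, fun l z => 𝔸' l (fun i => (z i).1),
      fun i => ⟨a i, ha i⟩, Val.of_hom hV hval, ?_⟩
    ext q
    constructor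
    · rintro ⟨h1, f, h2, h3⟩
      exact ⟨h1, fun v => (f v).1, fun l z hz => h2 l z hz,
        fun v i hv => congrArg Subtype.val (h3 v i hv)⟩
    · intro hq
      exact ⟨hq.1, fun v => ⟨g ⟨q, hq⟩ v, hg _ v⟩, fun l z hz => hg1 ⟨q, hq⟩ l z hz,
        fun v i hv => Subtype.ext (hg2 ⟨q, hq⟩ v i hv)⟩
  · intro l z hz
    obtain ⟨c, h1, h2, h3⟩ := hC l _ hz
    exact ⟨c, h1, h2, (hATM τ N F A (Fin k) 𝔸' a c _ hF).2 h3⟩

end Pool.Agent.H36.GX
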